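import Pool.Agent.H43.BZ.Stm2

/-!
# LAMLE: the collision moment is bounded by the contact amplitude
-/

set_option autoImplicit false

open MeasureTheory Metric Set Filter Topology
open scoped RealInnerProductSpace ENNReal
open Pool.Agent.H43.BZ

namespace Pool.Agent.H415.BZ

theorem kk_nonneg {d : ℕ} (γ s : ℝ) (v w : E d) : 0 ≤ kk γ s v w := by
  unfold kk
  positivity

theorem P_pos {d : ℕ} (w : E d) : 0 < P d w := by
  unfold P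
  positivity

theorem P_le {d : ℕ} (w : E d) :
    P d w ≤ 2 ^ (4 * (d + 3)) * ((1 + ‖w‖) ^ (d + 7))⁻¹ := by
  have h0 : 0 ≤ ‖w‖ := norm_nonneg w
  have h1 : (1 + ‖w‖) ^ 2 ≤ 2 * (1 + ‖w‖ ^ 2) := by nlinarith [sq_nonneg (1 - ‖w‖)]
  have h2 : ((1 + ‖w‖) ^ 2) ^ (4 * (d + 3)) ≤ (2 * (1 + ‖w‖ ^ 2)) ^ (4 * (d + 3)) :=
    pow_le_pow_left₀ (by positivity) h1 _
  have h3 : (1 + ‖w‖) ^ (d + 7) ≤ ((1 + ‖w‖) ^ 2) ^ (4 * (d + 3)) := by
    rw [← pow_mul]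
    exact pow_le_pow_right₀ (by linarith) (by omega)
  have h4 : (1 + ‖w‖) ^ (d + 7) ≤ 2 ^ (4 * (d + 3)) * (1 + ‖w‖ ^ 2) ^ (4 * (d + 3)) := by
    rw [← mul_pow]
    exact h3.trans h2
  unfold P
  rw [← div_eq_mul_inv, inv_eq_one_div, div_le_div_iff₀ (by positivity) (by positivity)]
  linarith

theorem LAMLE (hk : S_KKI) : S_LAMLE := by
  intro d hd s γ hs0 hs1 hγ hγs
  obtain ⟨C, hC⟩ := hk d hd s γ hs0 hs1 hγ hγs
  refine ⟨2 ^ (4 * (d + 3)) * max C 0, by positivity, ?_⟩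
  intro f t N hf _ hfN
  have hN : 0 ≤ N := by
    have h := (hf 0 0).trans (hfN 0 0)
    exact nonneg_of_mul_nonneg_left h (P_pos 0)
  unfold Lam
  refine ciSup_le fun q => ?_
  obtain ⟨hi, hle, -⟩ := hC q.2
  have h1 : ∫ w, f t q.1 w * kk γ s q.2 w ≤
      ∫ w, (N * 2 ^ (4 * (d + 3))) * (kk γ s q.2 w * ((1 + ‖w‖) ^ (d + 7))⁻¹) := by
    refine integral_mono_of_nonneg (Eventually.of_forall fun w => ?_) (hi.const_mul _)
      (Eventually.of_forall fun w => ?_)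
    · exact mul_nonneg (hf _ _) (kk_nonneg _ _ _ _)
    · have h2 : f t q.1 w ≤ N * (2 ^ (4 * (d + 3)) * ((1 + ‖w‖) ^ (d + 7))⁻¹) :=
        (hfN _ _).trans (mul_le_mul_of_nonneg_left (P_le w) hN)
      have h3 := mul_le_mul_of_nonneg_right h2 (kk_nonneg γ s q.2 w)
      show f t q.1 w * kk γ s q.2 w ≤
        (N * 2 ^ (4 * (d + 3))) * (kk γ s q.2 w * ((1 + ‖w‖) ^ (d + 7))⁻¹)
      calc f t q.1 w * kk γ s q.2 w
          ≤ N * (2 ^ (4 * (d + 3)) * ((1 + ‖w‖) ^ (d + 7))⁻¹) * kk γ s q.2 w := h3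
        _ = (N * 2 ^ (4 * (d + 3))) * (kk γ s q.2 w * ((1 + ‖w‖) ^ (d + 7))⁻¹) := by ring
  rw [integral_const_mul] at h1
  calc ∫ w, f t q.1 w * kk γ s q.2 w
      ≤ (N * 2 ^ (4 * (d + 3))) * ∫ w, kk γ s q.2 w * ((1 + ‖w‖) ^ (d + 7))⁻¹ := h1
    _ ≤ (N * 2 ^ (4 * (d + 3))) * max C 0 :=
        mul_le_mul_of_nonneg_left (hle.trans (le_max_left _ _)) (by positivity)
    _ = 2 ^ (4 * (d + 3)) * max C 0 * N := by ring

end Pool.Agent.H415.BZ
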